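import Pool.Agent.H211.CH.Stm2

/-!
# Project CH (helper211): factors of iterates (`S_A3`)
-/

set_option autoImplicit false

open Polynomial

namespace Pool.Agent.H747.CH211

open Pool.Agent.H211.CH

universe u

variable {K : Type u} [Field K]

theorem it_zero (P : K[X]) : it P 0 = X := rfl

theorem it_succ (P : K[X]) (n : ℕ) : it P (n + 1) = P.comp (it P n) :=
  Function.iterate_succ_apply' _ _ _

theorem natDegree_it (P : K[X]) (n : ℕ) : (it P n).natDegree = P.natDegree ^ n := by
  induction n with
  | zero => rw [it_zero, natDegree_X, pow_zero]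
  | succ n ih => rw [it_succ, natDegree_comp, ih, pow_succ, mul_comm]

theorem it_comp_comp (U V : K[X]) (n : ℕ) :
    it (V.comp U) (n + 1) = V.comp ((it (U.comp V) n).comp U) := by
  induction n with
  | zero => rw [it_succ, it_zero, it_zero, comp_X, X_comp]
  | succ n ih =>
    rw [it_succ, ih, it_succ]
    simp only [comp_assoc]

theorem it_conj {P Q U : K[X]} (h : P.comp U = U.comp Q) (n : ℕ) :
    (it P n).comp U = U.comp (it Q n) := by
  induction n with
  | zero => rw [it_zero, it_zero, comp_X, X_comp]
  | succ n ih => rw [it_succ, it_succ, comp_assoc, ih, ← comp_assoc, h, comp_assoc]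

theorem exists_inv {A : K[X]} (h : A.natDegree = 1) :
    ∃ B : K[X], A.comp B = X ∧ B.comp A = X := by
  obtain ⟨a, ha, b, rfl⟩ := natDegree_eq_one.mp h
  refine ⟨C a⁻¹ * (X - C b), ?_, ?_⟩
  · rw [add_comp, mul_comp, C_comp, X_comp, C_comp, ← mul_assoc, ← C_mul, mul_inv_cancel₀ ha,
      C_1, one_mul, sub_add_cancel]
  · rw [mul_comp, C_comp, sub_comp, X_comp, C_comp, add_sub_cancel_right, ← mul_assoc, ← C_mul,
      inv_mul_cancel₀ ha, C_1, one_mul]

theorem aux (hC : S_CAN K) (hE : S_EL K) (k : ℕ) : ∀ (n : ℕ) (P A B : K[X]), A.natDegree = n →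
    2 ≤ P.natDegree → it P (k + 1) = A.comp B →
    ∃ P₂ : K[X], P.comp A = A.comp P₂ ∧ it P₂ (k + 1) = B.comp A := by
  intro n
  induction n using Nat.strong_induction_on with
  | _ n ih =>
    intro P A B hA hP h
    have hdeg : A.natDegree * B.natDegree = P.natDegree ^ (k + 1) := by
      rw [← natDegree_comp, ← h, natDegree_it]
    have hpos : 0 < P.natDegree ^ (k + 1) := pow_pos (by omega) _
    have hApos : 0 < A.natDegree := by
      rcases Nat.eq_zero_or_pos A.natDegree with h0 | h0
      · rw [h0, zero_mul] at hdeg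
        omega
      · exact h0
    have hBpos : 0 < B.natDegree := by
      rcases Nat.eq_zero_or_pos B.natDegree with h0 | h0
      · rw [h0, mul_zero] at hdeg
        omega
      · exact h0
    by_cases h1 : A.natDegree = 1
    · obtain ⟨Ai, hi1, hi2⟩ := exists_inv h1
      have e1 : P.comp A = A.comp (Ai.comp (P.comp A)) := by
        rw [← comp_assoc, hi1, X_comp]
      refine ⟨Ai.comp (P.comp A), e1, ?_⟩
      have e2 := it_conj e1 (k + 1)
      rw [h] at e2
      have e3 : Ai.comp ((A.comp B).comp A) = Ai.comp (A.comp (it (Ai.comp (P.comp A)) (k + 1))) := by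
        rw [e2]
      rw [← comp_assoc Ai A, hi2, X_comp, comp_assoc A B A, ← comp_assoc Ai A, hi2, X_comp] at e3
      exact e3.symm
    · have hgcd : 1 < Nat.gcd P.natDegree A.natDegree := by
        obtain ⟨l, hl, hlA⟩ := Nat.exists_prime_and_dvd h1
        have hlP : l ∣ P.natDegree := hl.dvd_of_dvd_pow ((hlA.trans (Dvd.intro _ hdeg)))
        have h2 := Nat.dvd_gcd hlP hlA
        have h3 : 0 < Nat.gcd P.natDegree A.natDegree := Nat.gcd_pos_of_pos_left _ (by omega)
        exact lt_of_lt_of_le hl.one_lt (Nat.le_of_dvd h3 h2)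
      have hPk : 0 < (it P k).natDegree := by
        rw [natDegree_it]
        exact pow_pos (by omega) _
      obtain ⟨U, P', A', hU, hPU, hAU⟩ := hE P (it P k) A B (by omega) hPk hApos hBpos
        (by rw [← it_succ, h]) hgcd
      have hdP : U.natDegree * P'.natDegree = P.natDegree := by
        rw [hPU, natDegree_comp]
      have hdA : U.natDegree * A'.natDegree = A.natDegree := by
        rw [hAU, natDegree_comp]
      have hA'pos : 0 < A'.natDegree := by
        rcases Nat.eq_zero_or_pos A'.natDegree with h0 | h0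
        · rw [h0, mul_zero] at hdA
          omega
        · exact h0
      have heq : U.comp (P'.comp (it P k)) = U.comp (A'.comp B) := by
        rw [← comp_assoc, ← hPU, ← it_succ, ← comp_assoc, ← hAU, h]
      have hde : (A'.comp B).natDegree = (P'.comp (it P k)).natDegree := by
        have h2 := congrArg natDegree heq
        rw [natDegree_comp (p := U), natDegree_comp (p := U)] at h2
        exact (Nat.eq_of_mul_eq_mul_left (by omega) h2).symm
      have hABpos : 0 < (A'.comp B).natDegree := by
        rw [natDegree_comp]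
        exact Nat.mul_pos hA'pos hBpos
      obtain ⟨L, hL, hL1, hL2⟩ := hC U (P'.comp (it P k)) U (A'.comp B) (by rw [← hde]; exact hABpos)
        hde.symm (by omega) heq
      have hAU' : A = U.comp (L.comp A') := by
        rw [← comp_assoc, hL2, hAU]
      have hdA' : (L.comp A').natDegree < n := by
        rw [natDegree_comp, hL, one_mul, ← hA, ← hdA]
        nlinarith
      have hdP1 : (P'.comp U).natDegree = P.natDegree := by
        rw [natDegree_comp, ← hdP, mul_comm]
      have hit : it (P'.comp U) (k + 1) = (L.comp A').comp (B.comp U) := by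
        rw [it_comp_comp, ← hPU, ← comp_assoc, hL1]
        simp only [comp_assoc]
      obtain ⟨P₂, h3, h4⟩ := ih _ hdA' (P'.comp U) (L.comp A') (B.comp U) rfl (by omega) hit
      refine ⟨P₂, ?_, ?_⟩
      · rw [hAU', comp_assoc U (L.comp A') P₂, ← h3]
        nth_rewrite 1 [hPU]
        simp only [comp_assoc]
      · rw [h4, comp_assoc, ← hAU']

theorem t_A3' (hC : S_CAN K) (hE : S_EL K) : S_A3 K := by
  intro P A B k hP hk h
  obtain ⟨j, rfl⟩ : ∃ j, k = j + 1 := ⟨k - 1, by omega⟩
  exact aux hC hE j _ P A B rfl hP h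

theorem t_A3 {K : Type u} [Field K] [IsAlgClosed K] [CharZero K] (hC : S_CAN K) (hE : S_EL K) :
    S_A3 K := t_A3' hC hE

end Pool.Agent.H747.CH211
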